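import Pool.Agent.R966.CP.Fin
import Pool.Agent.R966.CP.Nb
import Pool.Agent.R966.CP.Lf
import Pool.Agent.R966.CP.Walk
import Pool.Agent.R966.CP.Conf
import Pool.Agent.R966.CP.Samp
import Pool.Agent.R966.CP.Anim
import Pool.Agent.R966.CP.Lm
import Pool.Agent.R966.CP.Up
import Pool.Agent.R966.CP.Low
import Pool.Agent.R966.CP.Rho
import Pool.Agent.R966.CP.Cb
import Pool.Agent.R966.CP.Num
import Pool.Agent.R966.CP.Law
import Pool.Agent.R966.CP.Bad

/-!
# Dimension monotonicity of the annealed charged-polymer excess free energy fails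

There are an admissible charge law `μ` and a point `(δ, β)` of the quadrant such that
`F*(δ, β)` in dimension `2 ^ 1000` is strictly smaller than `F*(δ, β)` in dimension `1`, hence
`F*` strictly decreases at some step `d → d + 1`.
-/

set_option autoImplicit false

noncomputable section

namespace Pool.Agent.Results.MP_de3d19_pr.DimensionMonotonicityFails

open MeasureTheory Pool.Agent.R966.CP

/-- The law `μ` of one charge is admissible: all exponential moments are finite, mean zero,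
variance one. -/
structure Admissible (μ : Measure ℝ) : Prop where
  isProbability : IsProbabilityMeasure μ
  exponentialMoments : ∀ δ : ℝ, Integrable (fun x : ℝ => Real.exp (δ * x)) μ
  mean_zero : ∫ x : ℝ, x ∂μ = 0
  variance_one : ∫ x : ℝ, x ^ 2 ∂μ = 1

/-- `g*(l) = E exp (δ Ω - β Ω ^ 2)`, where `Ω` is the sum of `l` independent charges. -/
def gStar (μ : Measure ℝ) (δ β : ℝ) (l : ℕ) : ℝ :=
  ∫ ω : Fin l → ℝ, Real.exp (δ * ∑ i, ω i - β * (∑ i, ω i) ^ 2) ∂(Measure.pi fun _ => μ)

/-- The step of the walk on `ℤ ^ d` in direction `± e_i`. -/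
def stepVector {d : ℕ} (s : Fin d × Bool) : Fin d → ℤ := Pi.single s.1 (if s.2 then 1 else -1)

/-- The position `S_i` of the walk with the steps `w`. -/
def position {d n : ℕ} (w : Fin n → Fin d × Bool) (i : ℕ) : Fin d → ℤ :=
  ∑ j : Fin n, if (j : ℕ) < i then stepVector (w j) else 0

/-- The local time: the number of `1 ≤ i ≤ n` with `S_i = x`. -/
def localTime {d n : ℕ} (w : Fin n → Fin d × Bool) (x : Fin d → ℤ) : ℕ :=
  (Finset.univ.filter fun i : Fin n => position w ((i : ℕ) + 1) = x).card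

/-- `Z*_n`: the expectation, for simple random walk on `ℤ ^ d`, of the product of `g*` of the local
times over all sites. -/
def partitionFunction (d : ℕ) (μ : Measure ℝ) (δ β : ℝ) (n : ℕ) : ℝ :=
  (∑ w : Fin n → Fin d × Bool, ∏ᶠ x : Fin d → ℤ, gStar μ δ β (localTime w x)) / (2 * d : ℝ) ^ n

/-- `F*(δ, β)` in dimension `d`, the upper limit of `log Z*_n / n`. -/
def freeEnergy (d : ℕ) (μ : Measure ℝ) (δ β : ℝ) : EReal :=
  Filter.limsup (fun n : ℕ => ((Real.log (partitionFunction d μ δ β n) / n : ℝ) : EReal))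
    Filter.atTop

theorem partition_eq (d : ℕ) (μ : Measure ℝ) (δ β : ℝ) (n : ℕ) (h0 : gst μ δ β 0 = 1) :
    partitionFunction d μ δ β n = ZZ d (gst μ δ β) n := by
  unfold partitionFunction ZZ
  congr 1
  refine Finset.sum_congr rfl fun w _ => ?_
  have hs : (Function.mulSupport fun x : Fin d → ℤ => gStar μ δ β (localTime w x)) ⊆
      ((vis w : Finset (Fin d → ℤ)) : Set (Fin d → ℤ)) := by
    intro x hx
    by_contra hcon
    apply hx
    have h1 : localTime w x = 0 := by
      rw [localTime, Finset.card_eq_zero, Finset.filter_eq_empty_iff]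
      intro i _ hi
      apply hcon
      rw [Finset.mem_coe, vis, Finset.mem_image]
      exact ⟨i, Finset.mem_univ _, hi⟩
    change gStar μ δ β (localTime w x) = 1
    rw [h1]
    exact h0
  rw [finprod_eq_prod_of_mulSupport_subset _ hs]
  rfl

theorem of_main (h : ∃ (μ : Measure ℝ) (δ β : ℝ), Adm μ ∧ 0 ≤ δ ∧ 0 < β ∧
      FF (2 ^ 1000) (gst μ δ β) < FF 1 (gst μ δ β) ∧ gst μ δ β 0 = 1) :
    ∃ (μ : Measure ℝ) (δ β : ℝ), Admissible μ ∧ 0 ≤ δ ∧ 0 < β ∧
      freeEnergy (2 ^ 1000) μ δ β < freeEnergy 1 μ δ β ∧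
      ∃ d : ℕ, 1 ≤ d ∧ d < 2 ^ 1000 ∧ freeEnergy (d + 1) μ δ β < freeEnergy d μ δ β := by
  obtain ⟨μ, δ, β, hadm, hδ, hβ, hF, h0⟩ := h
  have hFF : ∀ d, freeEnergy d μ δ β = FF d (gst μ δ β) := by
    intro d
    unfold freeEnergy FF
    simp only [partition_eq d μ δ β _ h0]
  have h1 : freeEnergy (2 ^ 1000) μ δ β < freeEnergy 1 μ δ β := by
    rw [hFF, hFF]; exact hF
  refine ⟨μ, δ, β, ⟨hadm.prob, hadm.expo, hadm.mean, hadm.var⟩, hδ, hβ, h1, ?_⟩
  exact exists_descent (fun d => freeEnergy d μ δ β) (2 ^ 1000) Nat.one_le_two_pow h1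

/-- There are an admissible charge law `μ`, `δ ≥ 0` and `β > 0` for which the annealed excess free
energy in dimension `2 ^ 1000` is strictly smaller than in dimension `1`; in particular
`F*(δ, β)` in dimension `d + 1` is strictly smaller than in dimension `d` for some
`1 ≤ d < 2 ^ 1000`. -/
theorem result : ∃ (μ : Measure ℝ) (δ β : ℝ), Admissible μ ∧ 0 ≤ δ ∧ 0 < β ∧
      freeEnergy (2 ^ 1000) μ δ β < freeEnergy 1 μ δ β ∧
      ∃ d : ℕ, 1 ≤ d ∧ d < 2 ^ 1000 ∧ freeEnergy (d + 1) μ δ β < freeEnergy d μ δ β :=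
  of_main (main (up_ nb_ (walk_ lf_) (conf_ nb_ lf_) (lm_ samp_ anim_)) low_ rho_ cb_ bad_
    num_ law_)

end Pool.Agent.Results.MP_de3d19_pr.DimensionMonotonicityFails
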